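import Pool.Agent.W23.PL.Defs
import Pool.Agent.H442R2.BX.Ex
import Pool.Agent.H442R2.BX.Sv

/-! Subtask PL-TTC of helper23: the coprime pairs of moduli, one class `b` modulo `q`. -/

namespace Pool.Agent.W347.PL

open Finset
open Pool.Agent.H442R2
open Pool.Agent.H442R2.KF
open Pool.Agent.H442R2.BX.TaskEX
open Pool.Agent.W23.DC
open Pool.Agent.W23.PL

/-- Statement COS with `η` chosen before `ε` (as needed for TTC). -/
def St_COS' : Prop := ∀ θ δ : ℝ, 0 < θ → θ < 5 / 9 → 0 < δ → ∃ ε₀ η : ℝ, 0 < ε₀ ∧ 0 < η ∧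
    ∀ ε : ℝ, 0 < ε → ∃ C : ℝ, 0 < C ∧
    ∀ (N q D0 X : ℕ), 2 ≤ N → 1 ≤ q → Odd q → Squarefree q → (q : ℝ) ≤ (N : ℝ) ^ ε₀ →
    (X : ℝ) ≤ (N : ℝ) ^ θ → 1 ≤ D0 → (X : ℝ) ≤ (N : ℝ) ^ ε₀ * D0 →
    ∀ (b a a' : ℤ), |(b : ℝ)| ≤ q → |(a : ℝ)| ≤ N - (N : ℝ) ^ (1 / 2 : ℝ) →
    |(a' : ℝ)| ≤ N - (N : ℝ) ^ (1 / 2 : ℝ) → a ≠ a' →
    ∀ c c' : ℕ → ℝ, BX.CofO q c → BX.CofO q c' → BX.CofR ((N : ℝ) ^ ε) X c →
    BX.CofR ((N : ℝ) ^ ε) X c' → Fc N θ δ c c' →
    |∑ d ∈ Ioc D0 X, ∑ d' ∈ (Ioc D0 X).filter (fun d' => Nat.Coprime d d'), c d * c' d' *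
      (SEb N b a a' q d d' - N / (q * d * d'))| ≤ C * (N : ℝ) ^ (1 - η)

theorem pois0 : ∃ N₀ : ℕ, ∀ N : ℕ, N₀ ≤ N → ∀ m : ℕ, 1 ≤ m → (m : ℝ) ≤ (N : ℝ) ^ 3 →
    (m : ℝ) * Real.log N ≤ N → ∀ c : ℤ,
    |∑' n : ℤ, (if (m : ℤ) ∣ n - c then Wt N n else 0) - N / m| ≤ 1 / (N : ℝ) ^ 5 := by
  obtain ⟨N₀, hN₀⟩ := poisson_trunc
  refine ⟨N₀, fun N hN m hm hm3 hml c => ?_⟩
  have h := hN₀ N hN m hm hm3 c 0 (by simpa using hml)
  have e1 : ∑ j ∈ Icc (-((0 : ℕ) : ℤ)) ((0 : ℕ) : ℤ),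
      ((Real.exp (-Real.pi * ((j : ℝ) * N / m) ^ 2) : ℝ) : ℂ) * e ((j : ℝ) * c / m) = 1 := by
    simp [e]
  rw [e1, mul_one, ← Complex.ofReal_sub, Complex.norm_real, Real.norm_eq_abs] at h
  exact h

theorem ite_eqb (N : ℕ) (b a a' : ℤ) (q d d' : ℕ) (n : ℤ) :
    (if ((q : ℤ) ∣ n - b ∧ (d : ℤ) ∣ n - a ∧ (d' : ℤ) ∣ n - a') then Wt N n else 0) =
      Wt N n * (II q (n - b) * II d (n - a) * II d' (n - a')) := by
  unfold II
  by_cases h1 : (q : ℤ) ∣ n - b
  · by_cases h2 : (d : ℤ) ∣ n - a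
    · by_cases h3 : (d' : ℤ) ∣ n - a'
      · rw [if_pos ⟨h1, h2, h3⟩, if_pos h1, if_pos h2, if_pos h3]; ring
      · rw [if_neg (fun h => h3 h.2.2), if_neg h3]; ring
    · rw [if_neg (fun h => h2 h.2.1), if_neg h2]; ring
  · rw [if_neg (fun h => h1 h.1), if_neg h1]; ring

theorem hasSum_SEb (N : ℕ) (hN : 1 ≤ N) (b a a' : ℤ) (q d d' : ℕ) :
    HasSum (fun n : ℤ => Wt N n * (II q (n - b) * II d (n - a) * II d' (n - a')))
      (SEb N b a a' q d d') := by
  have h1 : Summable (fun n : ℤ => Wt N n * (II q (n - b) * II d (n - a) * II d' (n - a'))) := by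
    refine summable_bd N hN _ 1 fun n => ?_
    rw [abs_mul, abs_mul]
    have k1 := II_abs q (n - b)
    have k2 := II_abs d (n - a)
    have k3 := II_abs d' (n - a')
    calc |II q (n - b)| * |II d (n - a)| * |II d' (n - a')| ≤ 1 * 1 * 1 := by gcongr
      _ = 1 := by norm_num
  have h2 : SEb N b a a' q d d' =
      ∑' n : ℤ, Wt N n * (II q (n - b) * II d (n - a) * II d' (n - a')) := by
    unfold SEb
    exact tsum_congr fun n => ite_eqb N b a a' q d d' n
  rw [h2]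
  exact h1.hasSum

/-- Opening the product. -/
theorem open_prod (N : ℕ) (hN : 1 ≤ N) (b a a' : ℤ) (q d d' : ℕ) :
    ∑' n : ℤ, (if (q : ℤ) ∣ n - b then Wt N n else 0) * (BX.dl d (n - a) * BX.dl d' (n - a')) =
      SEb N b a a' q d d' - SEb N b a a' q d 1 / d' - SEb N b a a' q 1 d' / d +
        SEb N b a a' q 1 1 / (d * d') := by
  have hT := (((hasSum_SEb N hN b a a' q d d').sub ((hasSum_SEb N hN b a a' q d 1).div_const
      (d' : ℝ))).sub ((hasSum_SEb N hN b a a' q 1 d').div_const (d : ℝ))).add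
      ((hasSum_SEb N hN b a a' q 1 1).div_const ((d : ℝ) * d'))
  rw [← hT.tsum_eq]
  refine tsum_congr fun n => ?_
  have e1 : (if (q : ℤ) ∣ n - b then Wt N n else 0) = Wt N n * II q (n - b) := by
    unfold II
    split_ifs <;> simp
  rw [e1, dl_eq, dl_eq, II_one, II_one, one_div, one_div, div_eq_mul_inv, div_eq_mul_inv,
    div_eq_mul_inv, mul_inv]
  ring

/-- Three coprime congruences. -/
theorem SEb_eq (N : ℕ) (b a a' : ℤ) (q d d' : ℕ) (h1 : Nat.Coprime q d) (h2 : Nat.Coprime q d')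
    (h3 : Nat.Coprime d d') : ∃ c : ℤ, SEb N b a a' q d d' =
      ∑' n : ℤ, (if ((q * d * d' : ℕ) : ℤ) ∣ n - c then Wt N n else 0) := by
  obtain ⟨c, c1, c2, c3⟩ := BX.TaskSV.crt_exists (a - b) (a' - b) q d d' h1 h2 h3
  refine ⟨b + c, ?_⟩
  unfold SEb
  refine tsum_congr fun n => ?_
  have h := BX.TaskSV.dvd_iff (a - b) (a' - b) c (n - b) q d d' h1 h2 h3 c1 c2 c3
  have e1 : n - b - (a - b) = n - a := by ring
  have e2 : n - b - (a' - b) = n - a' := by ring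
  have e3 : n - b - c = n - (b + c) := by ring
  rw [e1, e2, e3] at h
  by_cases hp : ((q : ℤ) ∣ n - b ∧ (d : ℤ) ∣ n - a ∧ (d' : ℤ) ∣ n - a')
  · rw [if_pos hp, if_pos (h.1 hp)]
  · rw [if_neg hp, if_neg (fun h' => hp (h.2 h'))]

theorem inner_bound (N : ℕ) (hN : 1 ≤ N) (b a a' : ℤ) (q d d' : ℕ) :
    |∑' n : ℤ, (if (q : ℤ) ∣ n - b then Wt N n else 0) *
      (BX.dl d (n - a) * BX.dl d' (n - a'))| ≤ 4 * ∑' n : ℤ, Wt N n := by
  have hs := TaskS.summable_Wt N hN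
  have hb : ∀ n : ℤ, ‖(if (q : ℤ) ∣ n - b then Wt N n else 0) *
      (BX.dl d (n - a) * BX.dl d' (n - a'))‖ ≤ 4 * Wt N n := by
    intro n
    rw [Real.norm_eq_abs, abs_mul, abs_mul]
    have k1 := dl_abs d (n - a)
    have k2 := dl_abs d' (n - a')
    have k3 := Wt_pos N n
    have k4 : |(if (q : ℤ) ∣ n - b then Wt N n else 0)| ≤ Wt N n := by
      split_ifs
      · rw [abs_of_pos k3]
      · rw [abs_zero]; exact k3.le
    calc |(if (q : ℤ) ∣ n - b then Wt N n else 0)| * (|BX.dl d (n - a)| * |BX.dl d' (n - a')|)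
        ≤ Wt N n * (2 * 2) := by gcongr
      _ = 4 * Wt N n := by ring
  have h := tsum_of_norm_bounded (hs.mul_left 4).hasSum hb
  rw [Real.norm_eq_abs, tsum_mul_left] at h
  exact h

theorem TTC' (hCOS : St_COS') : St_TTC := by
  intro θ δ hθ0 hθ hδ
  obtain ⟨ε₁, η₁, hε₁, hη₁, hcos⟩ := hCOS θ δ hθ0 hθ hδ
  set ε₀ : ℝ := min ε₁ (min (1 / 10) ((1 - θ) / 4)) with hε₀def
  set η : ℝ := min η₁ 1 with hηdef
  have hε₀ : 0 < ε₀ := by
    apply lt_min hε₁
    apply lt_min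
    · norm_num
    · linarith
  have hε₀1 : ε₀ ≤ ε₁ := min_le_left _ _
  have hε₀2 : ε₀ ≤ (1 - θ) / 4 := (min_le_right _ _).trans (min_le_right _ _)
  have hη : 0 < η := lt_min hη₁ one_pos
  have hη1 : η ≤ η₁ := min_le_left _ _
  have hη2 : η ≤ 1 := min_le_right _ _
  refine ⟨ε₀, η, hε₀, hη, fun ε hε => ?_⟩
  obtain ⟨C₁, hC₁, hcos1⟩ := hcos ε hε
  obtain ⟨N₁, hN₁⟩ := pois0
  -- logarithm against a power
  set κ : ℝ := 1 - θ - ε₀ with hκ
  have hκ0 : 0 < κ := by rw [hκ]; linarith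
  obtain ⟨N₂, hN₂⟩ : ∃ N₂ : ℕ, ∀ N : ℕ, N₂ ≤ N → Real.log N ≤ (N : ℝ) ^ κ := by
    have h1 := (isLittleO_log_rpow_atTop hκ0).bound (one_pos)
    have h2 := (tendsto_natCast_atTop_atTop (R := ℝ)).eventually h1
    have h3 := h2.and (Filter.eventually_ge_atTop 1)
    obtain ⟨N₂, hN₂⟩ := Filter.eventually_atTop.mp h3
    refine ⟨N₂, fun N hN => ?_⟩
    obtain ⟨h4, h5⟩ := hN₂ N hN
    rw [one_mul, Real.norm_eq_abs, Real.norm_eq_abs, abs_of_nonneg (Real.log_natCast_nonneg N),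
      abs_of_nonneg (by positivity)] at h4
    exact h4
  set N₀ : ℕ := max N₁ N₂ with hN₀
  set Cs : ℝ := ∑ N ∈ range N₀, 4 * (N : ℝ) ^ 2 * ∑' n : ℤ, Wt N n with hCs
  have hWn : ∀ N : ℕ, 0 ≤ ∑' n : ℤ, Wt N n := fun N => tsum_nonneg fun n => (Wt_pos N n).le
  have hCs0 : 0 ≤ Cs := Finset.sum_nonneg fun N _ => mul_nonneg (by positivity) (hWn N)
  refine ⟨C₁ + 3 + Cs, by linarith, ?_⟩
  intro N q D0 X hN hq hodd hsq hqN hXN hD0 hXD b a a' hb ha ha' haa c c' hc hc' hr hr' hF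
  have hN1 : (1 : ℝ) ≤ N := by exact_mod_cast (by omega : 1 ≤ N)
  have hN0 : (0 : ℝ) < N := by linarith
  have hXleN : (X : ℝ) ≤ N := by
    refine hXN.trans ?_
    calc (N : ℝ) ^ θ ≤ (N : ℝ) ^ (1 : ℝ) := Real.rpow_le_rpow_of_exponent_le hN1 (by linarith)
      _ = N := Real.rpow_one _
  have hpow1 : (1 : ℝ) ≤ (N : ℝ) ^ (1 - η) := Real.one_le_rpow hN1 (by linarith)
  have hcardI : ((Ioc D0 X).card : ℝ) ≤ N := by
    rw [Nat.card_Ioc]
    refine le_trans ?_ hXleN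
    exact_mod_cast Nat.sub_le X D0
  have hcardF : ∀ d : ℕ, (((Ioc D0 X).filter (fun d' => Nat.Coprime d d')).card : ℝ) ≤ N := by
    intro d
    refine le_trans ?_ hcardI
    exact_mod_cast Finset.card_filter_le _ _
  have hdouble : ∀ (G : ℕ → ℕ → ℝ) (B : ℝ), 0 ≤ B →
      (∀ d ∈ Ioc D0 X, ∀ d' ∈ (Ioc D0 X).filter (fun d' => Nat.Coprime d d'), |G d d'| ≤ B) →
      |∑ d ∈ Ioc D0 X, ∑ d' ∈ (Ioc D0 X).filter (fun d' => Nat.Coprime d d'), G d d'| ≤
        (N : ℝ) ^ 2 * B := by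
    intro G B hB hG
    calc |∑ d ∈ Ioc D0 X, ∑ d' ∈ (Ioc D0 X).filter (fun d' => Nat.Coprime d d'), G d d'|
        ≤ ∑ d ∈ Ioc D0 X, |∑ d' ∈ (Ioc D0 X).filter (fun d' => Nat.Coprime d d'), G d d'| :=
          Finset.abs_sum_le_sum_abs _ _
      _ ≤ ∑ d ∈ Ioc D0 X, (N : ℝ) * B := by
          refine Finset.sum_le_sum fun d hd => ?_
          refine (Finset.abs_sum_le_sum_abs _ _).trans ?_
          refine (Finset.sum_le_sum fun d' hd' => hG d hd d' hd').trans ?_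
          rw [Finset.sum_const, nsmul_eq_mul]
          exact mul_le_mul_of_nonneg_right (hcardF d) hB
      _ ≤ (N : ℝ) ^ 2 * B := by
          rw [Finset.sum_const, nsmul_eq_mul]
          have h0 : 0 ≤ (N : ℝ) * B := by positivity
          calc ((Ioc D0 X).card : ℝ) * ((N : ℝ) * B) ≤ N * ((N : ℝ) * B) :=
                mul_le_mul_of_nonneg_right hcardI h0
            _ = (N : ℝ) ^ 2 * B := by ring
  have hcc : ∀ d d' : ℕ, |c d * c' d'| ≤ 1 := by
    intro d d'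
    rw [abs_mul]
    calc |c d| * |c' d'| ≤ 1 * 1 :=
          mul_le_mul (hc.bd d) (hc'.bd d') (abs_nonneg _) zero_le_one
      _ = 1 := one_mul 1
  rcases lt_or_ge N N₀ with hlt | hge
  · -- small N
    have h1 := hdouble (fun d d' => c d * c' d' *
      ∑' n : ℤ, (if (q : ℤ) ∣ n - b then Wt N n else 0) *
        (BX.dl d (n - a) * BX.dl d' (n - a'))) (4 * ∑' n : ℤ, Wt N n)
        (mul_nonneg (by norm_num) (hWn N)) (by
        intro d _ d' _
        rw [abs_mul]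
        calc |c d * c' d'| * _ ≤ 1 * (4 * ∑' n : ℤ, Wt N n) :=
              mul_le_mul (hcc d d') (inner_bound N (by omega) b a a' q d d') (abs_nonneg _)
                zero_le_one
          _ = 4 * ∑' n : ℤ, Wt N n := one_mul _)
    refine h1.trans ?_
    have h2 : (N : ℝ) ^ 2 * (4 * ∑' n : ℤ, Wt N n) ≤ Cs := by
      have h3 := Finset.single_le_sum (f := fun N : ℕ => 4 * (N : ℝ) ^ 2 * ∑' n : ℤ, Wt N n)
        (fun M _ => mul_nonneg (by positivity) (hWn M)) (Finset.mem_range.mpr hlt)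
      calc (N : ℝ) ^ 2 * (4 * ∑' n : ℤ, Wt N n) = 4 * (N : ℝ) ^ 2 * ∑' n : ℤ, Wt N n := by ring
        _ ≤ Cs := h3
    calc (N : ℝ) ^ 2 * (4 * ∑' n : ℤ, Wt N n) ≤ Cs := h2
      _ ≤ (C₁ + 3 + Cs) * 1 := by linarith
      _ ≤ (C₁ + 3 + Cs) * (N : ℝ) ^ (1 - η) :=
          mul_le_mul_of_nonneg_left hpow1 (by linarith)
  · -- large N
    have hge1 : N₁ ≤ N := (le_max_left _ _).trans hge
    have hge2 : N₂ ≤ N := (le_max_right _ _).trans hge
    have hlogN := hN₂ N hge2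
    have hlog0 : 0 ≤ Real.log N := Real.log_natCast_nonneg N
    have hqN' : (q : ℝ) ≤ (N : ℝ) ^ ε₁ :=
      hqN.trans (Real.rpow_le_rpow_of_exponent_le hN1 hε₀1)
    have hXD' : (X : ℝ) ≤ (N : ℝ) ^ ε₁ * D0 :=
      hXD.trans (mul_le_mul_of_nonneg_right (Real.rpow_le_rpow_of_exponent_le hN1 hε₀1)
        (Nat.cast_nonneg _))
    have hmain := hcos1 N q D0 X hN hq hodd hsq hqN' hXN hD0 hXD' b a a' hb ha ha' haa c c'
      hc hc' hr hr' hF
    -- moduli are small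
    have hmod : ∀ m : ℕ, (m : ℝ) ≤ (N : ℝ) ^ (θ + ε₀) →
        (m : ℝ) ≤ (N : ℝ) ^ 3 ∧ (m : ℝ) * Real.log N ≤ N := by
      intro m hm
      constructor
      · refine hm.trans ?_
        rw [← Real.rpow_natCast (N : ℝ) 3]
        apply Real.rpow_le_rpow_of_exponent_le hN1
        push_cast
        linarith
      · calc (m : ℝ) * Real.log N ≤ (N : ℝ) ^ (θ + ε₀) * (N : ℝ) ^ κ :=
              mul_le_mul hm hlogN hlog0 (by positivity)
          _ = (N : ℝ) ^ (θ + ε₀ + κ) := (Real.rpow_add hN0 _ _).symm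
          _ = N := by
              rw [hκ, show θ + ε₀ + (1 - θ - ε₀) = 1 by ring, Real.rpow_one]
    have hqd : ∀ d : ℕ, d ≤ X → (q : ℝ) * d ≤ (N : ℝ) ^ (θ + ε₀) := by
      intro d hd
      have hd' : (d : ℝ) ≤ (N : ℝ) ^ θ := le_trans (by exact_mod_cast hd) hXN
      calc (q : ℝ) * d ≤ (N : ℝ) ^ ε₀ * (N : ℝ) ^ θ :=
            mul_le_mul hqN hd' (Nat.cast_nonneg _) (by positivity)
        _ = (N : ℝ) ^ (θ + ε₀) := by rw [← Real.rpow_add hN0, add_comm]
    have hN5 : (0 : ℝ) < (N : ℝ) ^ 5 := by positivity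
    -- one or no congruence modulo d, d'
    have hS : ∀ d d' : ℕ, 1 ≤ d → 1 ≤ d' → Nat.Coprime q d → Nat.Coprime q d' →
        Nat.Coprime d d' → (q : ℝ) * d * d' ≤ (N : ℝ) ^ (θ + ε₀) →
        |SEb N b a a' q d d' - N / (q * d * d')| ≤ 1 / (N : ℝ) ^ 5 := by
      intro d d' hd hd' h1 h2 h3 hle
      obtain ⟨cc, hcc'⟩ := SEb_eq N b a a' q d d' h1 h2 h3
      have hm1 : 1 ≤ q * d * d' := Nat.succ_le_of_lt (by positivity)
      obtain ⟨m1, m2⟩ := hmod (q * d * d') (by push_cast; exact hle)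
      have h4 := hN₁ N hge1 (q * d * d') hm1 m1 m2 cc
      rw [← hcc'] at h4
      push_cast at h4
      exact h4
    -- error of one pair
    have herr : ∀ d ∈ Ioc D0 X, ∀ d' ∈ (Ioc D0 X).filter (fun d' => Nat.Coprime d d'),
        |c d * c' d' * (∑' n : ℤ, (if (q : ℤ) ∣ n - b then Wt N n else 0) *
          (BX.dl d (n - a) * BX.dl d' (n - a'))) -
          c d * c' d' * (SEb N b a a' q d d' - N / (q * d * d'))| ≤ 3 / (N : ℝ) ^ 5 := by
      intro d hd d' hd'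
      rw [Finset.mem_filter] at hd'
      have hdX : d ≤ X := (Finset.mem_Ioc.mp hd).2
      have hdX' : d' ≤ X := (Finset.mem_Ioc.mp hd'.1).2
      have hd1 : 1 ≤ d := by
        have := (Finset.mem_Ioc.mp hd).1
        omega
      have hd1' : 1 ≤ d' := by
        have := (Finset.mem_Ioc.mp hd'.1).1
        omega
      by_cases hz : c d * c' d' = 0
      · rw [hz, zero_mul, zero_mul, sub_zero, abs_zero]
        positivity
      · have hcd : c d ≠ 0 := left_ne_zero_of_mul hz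
        have hcd' : c' d' ≠ 0 := right_ne_zero_of_mul hz
        have k1 : Nat.Coprime q d :=
          (Nat.Coprime.coprime_dvd_right (Dvd.intro_left 2 rfl) (hc.cop d hcd)).symm
        have k2 : Nat.Coprime q d' :=
          (Nat.Coprime.coprime_dvd_right (Dvd.intro_left 2 rfl) (hc'.cop d' hcd')).symm
        rw [← mul_sub, abs_mul]
        have hE : |(∑' n : ℤ, (if (q : ℤ) ∣ n - b then Wt N n else 0) *
          (BX.dl d (n - a) * BX.dl d' (n - a'))) -
          (SEb N b a a' q d d' - N / (q * d * d'))| ≤ 3 / (N : ℝ) ^ 5 := by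
          rw [open_prod N (by omega)]
          have s1 := hS d 1 hd1 le_rfl k1 (Nat.coprime_one_right q) (Nat.coprime_one_right d)
            (by rw [Nat.cast_one, mul_one]; exact hqd d hdX)
          have s2 := hS 1 d' le_rfl hd1' (Nat.coprime_one_right q) k2 (Nat.coprime_one_left d')
            (by rw [Nat.cast_one, mul_one]; exact hqd d' hdX')
          have s3 := hS 1 1 le_rfl le_rfl (Nat.coprime_one_right q) (Nat.coprime_one_right q)
            (Nat.coprime_one_right 1) (by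
              rw [Nat.cast_one, mul_one, mul_one]
              have := hqd d hdX
              have hd1r : (1 : ℝ) ≤ d := by exact_mod_cast hd1
              have hq0 : (0 : ℝ) ≤ q := Nat.cast_nonneg _
              exact (le_mul_of_one_le_right hq0 hd1r).trans this)
          rw [Nat.cast_one, mul_one] at s1 s2
          rw [Nat.cast_one, mul_one, mul_one] at s3
          have hdr : (1 : ℝ) ≤ d := by exact_mod_cast hd1
          have hdr' : (1 : ℝ) ≤ d' := by exact_mod_cast hd1'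
          have hqr : (0 : ℝ) < q := by exact_mod_cast hq
          have hd0 : (0 : ℝ) < d := by linarith
          have hd0' : (0 : ℝ) < d' := by linarith
          have e1 : SEb N b a a' q d d' - SEb N b a a' q d 1 / d' - SEb N b a a' q 1 d' / d +
              SEb N b a a' q 1 1 / (d * d') - (SEb N b a a' q d d' - N / (q * d * d')) =
              -((SEb N b a a' q d 1 - N / (q * d)) / d') -
              (SEb N b a a' q 1 d' - N / (q * d')) / d +
              (SEb N b a a' q 1 1 - N / q) / (d * d') := by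
            field_simp
            ring
          rw [e1]
          have f1 : |(SEb N b a a' q d 1 - N / (q * d)) / d'| ≤ 1 / (N : ℝ) ^ 5 := by
            rw [abs_div, abs_of_pos hd0', div_le_iff₀ hd0']
            exact s1.trans (le_mul_of_one_le_right (by positivity) hdr')
          have f2 : |(SEb N b a a' q 1 d' - N / (q * d')) / d| ≤ 1 / (N : ℝ) ^ 5 := by
            rw [abs_div, abs_of_pos hd0, div_le_iff₀ hd0]
            exact s2.trans (le_mul_of_one_le_right (by positivity) hdr)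
          have f3 : |(SEb N b a a' q 1 1 - N / q) / (d * d')| ≤ 1 / (N : ℝ) ^ 5 := by
            rw [abs_div, abs_of_pos (by positivity : (0 : ℝ) < d * d'),
              div_le_iff₀ (by positivity)]
            exact s3.trans (le_mul_of_one_le_right (by positivity)
              (one_le_mul_of_one_le_of_one_le hdr hdr'))
          calc |-((SEb N b a a' q d 1 - N / (q * d)) / d') -
              (SEb N b a a' q 1 d' - N / (q * d')) / d +
              (SEb N b a a' q 1 1 - N / q) / (d * d')|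
              ≤ |-((SEb N b a a' q d 1 - N / (q * d)) / d')| +
                |(SEb N b a a' q 1 d' - N / (q * d')) / d| +
                |(SEb N b a a' q 1 1 - N / q) / (d * d')| := by
                refine (abs_add_le _ _).trans (add_le_add ?_ le_rfl)
                exact abs_sub _ _
            _ ≤ 1 / (N : ℝ) ^ 5 + 1 / (N : ℝ) ^ 5 + 1 / (N : ℝ) ^ 5 := by
                rw [abs_neg]
                exact add_le_add (add_le_add f1 f2) f3
            _ = 3 / (N : ℝ) ^ 5 := by ring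
        calc |c d * c' d'| * _ ≤ 1 * (3 / (N : ℝ) ^ 5) :=
              mul_le_mul (hcc d d') hE (abs_nonneg _) zero_le_one
          _ = 3 / (N : ℝ) ^ 5 := one_mul _
    have hdiff := hdouble (fun d d' => c d * c' d' *
        (∑' n : ℤ, (if (q : ℤ) ∣ n - b then Wt N n else 0) *
          (BX.dl d (n - a) * BX.dl d' (n - a'))) -
          c d * c' d' * (SEb N b a a' q d d' - N / (q * d * d'))) (3 / (N : ℝ) ^ 5)
        (by positivity) herr
    have hsplit : ∑ d ∈ Ioc D0 X, ∑ d' ∈ (Ioc D0 X).filter (fun d' => Nat.Coprime d d'),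
        (c d * c' d' * (∑' n : ℤ, (if (q : ℤ) ∣ n - b then Wt N n else 0) *
          (BX.dl d (n - a) * BX.dl d' (n - a'))) -
          c d * c' d' * (SEb N b a a' q d d' - N / (q * d * d'))) =
        (∑ d ∈ Ioc D0 X, ∑ d' ∈ (Ioc D0 X).filter (fun d' => Nat.Coprime d d'), c d * c' d' *
          ∑' n : ℤ, (if (q : ℤ) ∣ n - b then Wt N n else 0) *
          (BX.dl d (n - a) * BX.dl d' (n - a'))) -
        ∑ d ∈ Ioc D0 X, ∑ d' ∈ (Ioc D0 X).filter (fun d' => Nat.Coprime d d'), c d * c' d' *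
          (SEb N b a a' q d d' - N / (q * d * d')) := by
      rw [← Finset.sum_sub_distrib]
      refine Finset.sum_congr rfl fun d _ => ?_
      rw [← Finset.sum_sub_distrib]
    rw [hsplit] at hdiff
    have h3 : (N : ℝ) ^ 2 * (3 / (N : ℝ) ^ 5) ≤ 3 := by
      have : (N : ℝ) ^ 2 * (3 / (N : ℝ) ^ 5) = 3 / (N : ℝ) ^ 3 := by
        field_simp
      rw [this]
      exact div_le_self (by norm_num) (one_le_pow₀ hN1)
    have h4 : C₁ * (N : ℝ) ^ (1 - η₁) ≤ C₁ * (N : ℝ) ^ (1 - η) :=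
      mul_le_mul_of_nonneg_left (Real.rpow_le_rpow_of_exponent_le hN1 (by linarith)) hC₁.le
    have h5 := abs_sub_abs_le_abs_sub
      (∑ d ∈ Ioc D0 X, ∑ d' ∈ (Ioc D0 X).filter (fun d' => Nat.Coprime d d'), c d * c' d' *
          ∑' n : ℤ, (if (q : ℤ) ∣ n - b then Wt N n else 0) *
          (BX.dl d (n - a) * BX.dl d' (n - a')))
      (∑ d ∈ Ioc D0 X, ∑ d' ∈ (Ioc D0 X).filter (fun d' => Nat.Coprime d d'), c d * c' d' *
          (SEb N b a a' q d d' - N / (q * d * d')))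
    have h6 : (3 : ℝ) + Cs ≤ (3 + Cs) * (N : ℝ) ^ (1 - η) := by
      have : 0 ≤ 3 + Cs := by linarith
      exact le_mul_of_one_le_right this hpow1
    calc |∑ d ∈ Ioc D0 X, ∑ d' ∈ (Ioc D0 X).filter (fun d' => Nat.Coprime d d'), c d * c' d' *
          ∑' n : ℤ, (if (q : ℤ) ∣ n - b then Wt N n else 0) *
          (BX.dl d (n - a) * BX.dl d' (n - a'))|
        ≤ C₁ * (N : ℝ) ^ (1 - η₁) + 3 := by linarith
      _ ≤ C₁ * (N : ℝ) ^ (1 - η) + (3 + Cs) * (N : ℝ) ^ (1 - η) := by linarith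
      _ = (C₁ + 3 + Cs) * (N : ℝ) ^ (1 - η) := by ring

end Pool.Agent.W347.PL
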